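import Pool.Agent.Helper50.AY.St

/-!
# AY module FLD (MP_b3ce06_al): the field case
-/

set_option autoImplicit false

namespace Pool.Agent.Helper22.AY

open Pool.Agent.Helper50.AY Pool.Agent.Helper43.GD Polynomial

/-- AY module FLD -/
theorem hFLD (hUT : StUT) (hMXI : StMXI) (hEV : StEV) : StFLD := by
  intro L A _ _ Q p _ k x hR hx hF u
  have hnt : Nontrivial L := hF.nontrivial
  obtain ⟨ev, hev, hsurj⟩ := hEV L p k x hR
  obtain ⟨P, hmon, hirr, hdeg, hnu, -⟩ := hMXI L p k x hR hnt ev hev hsurj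
  have hP0 : ev P = 0 := by
    by_contra h
    obtain ⟨b, hb⟩ := hF.mul_inv_cancel h
    exact hnu (IsUnit.of_mul_eq_one b hb)
  obtain ⟨g, hg⟩ := hsurj (u : L)
  have hmod : ev (g %ₘ P) = (u : L) := by
    have h1 := Polynomial.modByMonic_add_div g P
    have h2 : ev g = ev (g %ₘ P) + ev P * ev (g /ₘ P) := by
      rw [← map_mul, ← map_add, h1]
    rw [hP0, zero_mul, add_zero, hg] at h2
    exact h2.symm
  have hr0 : g %ₘ P ≠ 0 := by
    intro h
    rw [h, map_zero] at hmod
    exact u.ne_zero hmod.symm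
  have hP1 : P ≠ 1 := by
    intro h
    rw [h] at hirr
    exact hirr.not_isUnit isUnit_one
  have hrd : (g %ₘ P).natDegree < p ^ (k + 1) := by
    rw [← hdeg]
    exact Polynomial.natDegree_modByMonic_lt g hmon hP1
  obtain ⟨w, hwU, hw⟩ := hUT L A Q p k x hR hx ev hev (g %ₘ P) hr0 hrd
  have hwu : w = u := by
    apply Units.ext
    rw [hw, hmod]
  rw [← hwu]
  exact hwU

end Pool.Agent.Helper22.AY
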